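import Pool.Agent.UL6.Stmts
import Pool.Agent.Helper15_UL5.STC

/-!
# Squad UL6 (MP_c7c9bf_co), row STF (helper15): the standard position of a frustum
-/

set_option autoImplicit false

open MeasureTheory Set

namespace Pool.Agent.UL6.H15

open Pool.Agent.UL3 Pool.Agent.UL4 Pool.Agent.UL5 Pool.Agent.UL5.H15

theorem combo (C₀ : Set (ℝ × ℝ)) (hc : Convex ℝ C₀) (h0 : (0 : ℝ × ℝ) ∈ C₀) {c d : ℝ × ℝ}
    (hcC : c ∈ C₀) (hdC : d ∈ C₀) {s1 s2 r : ℝ} (h1 : 0 ≤ s1) (h2 : 0 ≤ s2) (h12 : s1 + s2 ≤ r) :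
    ∃ q ∈ C₀, s1 • c + s2 • d = r • q := by
  rcases eq_or_lt_of_le (le_trans (add_nonneg h1 h2) h12) with hr | hr
  · have e1 : s1 = 0 := by linarith
    have e2 : s2 = 0 := by linarith
    exact ⟨0, h0, by rw [e1, e2, ← hr]; simp⟩
  · refine ⟨(s1 / r) • c + (s2 / r) • d, ?_, ?_⟩
    · have h3 : s1 / r + s2 / r ≤ 1 := by
        rw [← add_div, div_le_one hr]
        exact h12
      have h4 := hc.sum_mem (t := (Finset.univ : Finset (Fin 3)))
        (w := ![s1 / r, s2 / r, 1 - (s1 / r + s2 / r)]) (z := ![c, d, 0]) ?_ ?_ ?_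
      · simpa [Fin.sum_univ_three] using h4
      · intro i _
        fin_cases i
        · exact div_nonneg h1 hr.le
        · exact div_nonneg h2 hr.le
        · show (0 : ℝ) ≤ 1 - (s1 / r + s2 / r)
          linarith
      · simp [Fin.sum_univ_three]
      · intro i _
        fin_cases i
        · exact hcC
        · exact hdC
        · exact h0
    · rw [smul_add, smul_smul, smul_smul, mul_div_cancel₀ _ hr.ne', mul_div_cancel₀ _ hr.ne']

theorem slice (K0 : Set E3) (C₀ : Set (ℝ × ℝ)) (f : ℝ → ℝ)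
    (h : ∀ y ∈ K0, ∃ q ∈ C₀, (y 0, y 1) = f (y 2) • q) (hint : (interior K0).Nonempty) :
    (interior C₀).Nonempty := by
  obtain ⟨y, hy⟩ := hint
  by_cases hf : f (y 2) = 0
  · exfalso
    have hU : IsOpen {e : ℝ × ℝ | up e (y 2) ∈ interior K0} := by
      have hc : Continuous fun e : ℝ × ℝ => up e (y 2) :=
        continuous_up.comp (continuous_id.prodMk continuous_const)
      exact isOpen_interior.preimage hc
    have hsub : ∀ e : ℝ × ℝ, up e (y 2) ∈ interior K0 → e = 0 := by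
      intro e he
      obtain ⟨q', _, hq'⟩ := h _ (interior_subset he)
      rw [up_two, hf, zero_smul] at hq'
      exact hq'
    have hU0 : {e : ℝ × ℝ | up e (y 2) ∈ interior K0} = {0} := by
      ext e
      constructor
      · intro he
        exact hsub e he
      · rintro rfl
        have h2 := up_self y
        have h3 : (y 0, y 1) = (0 : ℝ × ℝ) := by
          apply hsub
          rw [h2]
          exact hy
        rw [h3] at h2
        show up 0 (y 2) ∈ interior K0
        rw [h2]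
        exact hy
    rw [hU0] at hU
    haveI : (nhdsWithin (0 : ℝ × ℝ) {0}ᶜ).NeBot := Module.punctured_nhds_neBot ℝ (ℝ × ℝ) 0
    exact not_isOpen_singleton (0 : ℝ × ℝ) hU
  · have hopen : IsOpen {q : ℝ × ℝ | up (f (y 2) • q) (y 2) ∈ interior K0} := by
      have hc : Continuous fun q : ℝ × ℝ => up (f (y 2) • q) (y 2) :=
        continuous_up.comp ((continuous_const_smul (f (y 2))).prodMk continuous_const)
      exact isOpen_interior.preimage hc
    have hsub : {q : ℝ × ℝ | up (f (y 2) • q) (y 2) ∈ interior K0} ⊆ C₀ := by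
      intro q hq
      obtain ⟨q', hq', he⟩ := h _ (interior_subset hq)
      rw [up_two] at he
      have he' : f (y 2) • q = f (y 2) • q' := he
      have : q = q' := smul_right_injective _ hf he'
      rw [this]
      exact hq'
    refine ⟨(f (y 2))⁻¹ • (y 0, y 1), interior_maximal hsub hopen ?_⟩
    show up (f (y 2) • ((f (y 2))⁻¹ • (y 0, y 1))) (y 2) ∈ interior K0
    rw [smul_smul, mul_inv_cancel₀ hf, one_smul, up_self]
    exact hy

theorem base (C : Set E3) (c n p : E3) (hCc : IsCompact C) (hCv : Convex ℝ C) (hCn : C.Nonempty)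
    (hCs : ∀ x ∈ C, (2 : ℝ) • c - x ∈ C) (hplane : ∀ x ∈ C, inner ℝ (x - c) n = 0)
    (hp : inner ℝ (p - c) n ≠ 0) :
    ∃ (T : E3 ≃L[ℝ] E3) (π : E3 → ℝ × ℝ), T (p - c) = up 0 1 ∧ (∀ x ∈ C, T (x - c) = up (π x) 0) ∧
      IsCompact (π '' C) ∧ Convex ℝ (π '' C) ∧ (∀ q ∈ π '' C, -q ∈ π '' C) ∧
      (0 : ℝ × ℝ) ∈ π '' C := by
  obtain ⟨T, hTw, hT2⟩ := exists_T n (p - c) hp
  set π : E3 → ℝ × ℝ := fun x => ((T (x - c)) 0, (T (x - c)) 1) with hπ
  have hTx : ∀ x ∈ C, T (x - c) = up (π x) 0 := by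
    intro x hx
    have h1 := up_self (T (x - c))
    rw [hT2 _ (hplane x hx)] at h1
    exact h1.symm
  have hcC : c ∈ C := by
    obtain ⟨x, hx⟩ := hCn
    have h1 := hCv hx (hCs x hx) (a := 1 / 2) (b := 1 / 2) (by norm_num) (by norm_num)
      (by norm_num)
    have h2 : (1 / 2 : ℝ) • x + (1 / 2 : ℝ) • ((2 : ℝ) • c - x) = c := by module
    rwa [h2] at h1
  have hπcont : Continuous π := by
    have h1 : Continuous fun x : E3 => T (x - c) :=
      T.continuous.comp (continuous_id.sub continuous_const)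
    exact ((PiLp.continuous_apply 2 _ 0).comp h1).prodMk ((PiLp.continuous_apply 2 _ 1).comp h1)
  refine ⟨T, π, hTw, hTx, hCc.image hπcont, ?_, ?_, ?_⟩
  · rintro _ ⟨x, hx, rfl⟩ _ ⟨y, hy, rfl⟩ a b ha hb hab
    refine ⟨a • x + b • y, hCv hx hy ha hb hab, ?_⟩
    have h1 : a • x + b • y - c = a • (x - c) + b • (y - c) := by
      have h2 : c = (a + b) • c := by rw [hab, one_smul]
      conv_lhs => rw [h2]
      module
    show ((T (a • x + b • y - c)) 0, (T (a • x + b • y - c)) 1) = a • π x + b • π y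
    rw [h1, map_add, map_smul, map_smul]
    rfl
  · rintro _ ⟨x, hx, rfl⟩
    refine ⟨(2 : ℝ) • c - x, hCs x hx, ?_⟩
    have h1 : (2 : ℝ) • c - x - c = -(x - c) := by module
    show ((T ((2 : ℝ) • c - x - c)) 0, (T ((2 : ℝ) • c - x - c)) 1) = -π x
    rw [h1, map_neg]
    rfl
  · refine ⟨c, hcC, ?_⟩
    show ((T (c - c)) 0, (T (c - c)) 1) = 0
    rw [sub_self, map_zero]
    rfl

theorem aff (T : E3 ≃L[ℝ] E3) (c : E3) (a b : ℝ) (hab : a + b = 1) (x y : E3) :
    T (a • x + b • y - c) = a • T (x - c) + b • T (y - c) := by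
  have h1 : a • x + b • y - c = a • (x - c) + b • (y - c) := by
    have h2 : c = (a + b) • c := by rw [hab, one_smul]
    conv_lhs => rw [h2]
    module
  rw [h1, map_add, map_smul, map_smul]

theorem hull_sub (T : E3 ≃L[ℝ] E3) (c : E3) (S K : Set E3) (hK : Convex ℝ K)
    (hS : ∀ x ∈ S, T (x - c) ∈ K) : ∀ x ∈ convexHull ℝ S, T (x - c) ∈ K := by
  have hconv : Convex ℝ {x : E3 | T (x - c) ∈ K} := by
    intro x hx y hy a b ha hb hab
    show T (a • x + b • y - c) ∈ K
    rw [aff T c a b hab]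
    exact hK hx hy ha hb hab
  exact fun x hx => convexHull_min (s := S) (t := {x : E3 | T (x - c) ∈ K}) hS hconv hx

theorem int_image (T : E3 ≃L[ℝ] E3) (c : E3) (K : Set E3) (h : (interior K).Nonempty) :
    (interior ((fun x => T (x - c)) '' K)).Nonempty := by
  have h1 : (fun x => T (x - c)) '' K = ((Homeomorph.subRight c).trans T.toHomeomorph) '' K := rfl
  rw [h1, ← Homeomorph.image_interior]
  exact h.image _

theorem frg_convex (C₀ : Set (ℝ × ℝ)) (hc : Convex ℝ C₀) (h0 : (0 : ℝ × ℝ) ∈ C₀) (t : ℝ)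
    (ht0 : 0 ≤ t) (ht1 : t ≤ 1) : Convex ℝ (frg C₀ (1 - t) 1) := by
  rintro x ⟨hx0, hx1, u, hu, hxu⟩ y ⟨hy0, hy1, v, hv, hyv⟩ a b ha hb hab
  have e2 : (a • x + b • y) 2 = a * x 2 + b * y 2 := rfl
  have fx : 0 ≤ 1 - (1 - t) * x 2 := by nlinarith
  have fy : 0 ≤ 1 - (1 - t) * y 2 := by nlinarith
  obtain ⟨q, hq, hq2⟩ := combo C₀ hc h0 hu hv (mul_nonneg ha fx) (mul_nonneg hb fy) (le_refl _)
  refine ⟨?_, ?_, q, hq, ?_⟩
  · rw [e2]
    positivity
  · rw [e2]
    nlinarith
  · rw [e2]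
    have e3 : ((a • x + b • y) 0, (a • x + b • y) 1) = a • (x 0, x 1) + b • (y 0, y 1) := rfl
    rw [e3, hxu, hyv, smul_smul, smul_smul, hq2]
    congr 1
    have : b = 1 - a := by linarith
    subst this
    ring

theorem stf : StfStmt := by
  intro C c n p t hCc hCv hCn hCs hplane hp ht0 ht1 hint
  obtain ⟨T, π, hTw, hTx, hcpt, hcvx, hsym, hzero⟩ := base C c n p hCc hCv hCn hCs hplane hp
  have hT1 : ∀ x ∈ C, T (p + t • (x - c) - c) = up (t • π x) 1 := by
    intro x hx
    have h1 : p + t • (x - c) - c = (p - c) + t • (x - c) := by abel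
    rw [h1, map_add, map_smul, hTw, hTx x hx, up_smul, up_add, mul_zero, add_zero, zero_add]
  have himage : (fun x => T (x - c)) '' convexHull ℝ (C ∪ (fun x => p + t • (x - c)) '' C)
      = frg (π '' C) (1 - t) 1 := by
    ext y
    constructor
    · rintro ⟨w, hw, rfl⟩
      refine hull_sub T c _ _ (frg_convex _ hcvx hzero t ht0 ht1) ?_ w hw
      rintro x (hx | ⟨x, hx, rfl⟩)
      · rw [hTx x hx]
        refine ⟨?_, ?_, π x, ⟨x, hx, rfl⟩, ?_⟩
        · rw [up_two]
        · rw [up_two]; exact zero_le_one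
        · rw [up_two, mul_zero, sub_zero, one_smul]
          rfl
      · show T (p + t • (x - c) - c) ∈ frg (π '' C) (1 - t) 1
        rw [hT1 x hx]
        refine ⟨?_, ?_, π x, ⟨x, hx, rfl⟩, ?_⟩
        · rw [up_two]; exact zero_le_one
        · rw [up_two]
        · rw [up_two, mul_one, sub_sub_cancel]
          rfl
    · rintro ⟨h0, h1, q, ⟨x, hx, rfl⟩, hq⟩
      refine ⟨(1 - y 2) • x + y 2 • (p + t • (x - c)), ?_, ?_⟩
      · have hK := convex_convexHull ℝ (C ∪ (fun x => p + t • (x - c)) '' C)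
        exact hK (subset_convexHull ℝ _ (Or.inl hx))
          (subset_convexHull ℝ _ (Or.inr ⟨x, hx, rfl⟩)) (by linarith) h0 (by ring)
      · show T ((1 - y 2) • x + y 2 • (p + t • (x - c)) - c) = y
        rw [aff T c _ _ (by ring), hTx x hx, hT1 x hx, up_smul, up_smul, up_add, smul_smul,
          ← add_smul, mul_zero, mul_one, zero_add]
        have e : 1 - y 2 + y 2 * t = 1 - (1 - t) * y 2 := by ring
        rw [e, ← hq]
        exact up_self y
  refine ⟨T, π '' C, ⟨hcpt, hcvx, hsym, ?_⟩, himage⟩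
  refine slice (frg (π '' C) (1 - t) 1) (π '' C) (fun z => 1 - (1 - t) * z) ?_ ?_
  · rintro y ⟨_, _, q, hq, h⟩
    exact ⟨q, hq, h⟩
  · rw [← himage]
    exact int_image T c _ hint

end Pool.Agent.UL6.H15
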