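import Pool.Agent.UL6.Stmts2
import Pool.Agent.Helper15_UL6.STF

/-!
# Squad UL6 (MP_c7c9bf_co), row SDF (helper15): the standard position of a double frustum
-/

set_option autoImplicit false

open MeasureTheory Set

namespace Pool.Agent.UL6.H15

open Pool.Agent.UL3 Pool.Agent.UL4 Pool.Agent.UL5 Pool.Agent.UL5.H15

theorem tdd_convex (C₀ : Set (ℝ × ℝ)) (hc : Convex ℝ C₀) (h0 : (0 : ℝ × ℝ) ∈ C₀) (t : ℝ)
    (ht0 : 0 ≤ t) (ht1 : t ≤ 1) : Convex ℝ (tdd C₀ t) := by
  rintro x ⟨hx1, u, hu, hxu⟩ y ⟨hy1, v, hv, hyv⟩ a b ha hb hab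
  have e2 : (a • x + b • y) 2 = a * x 2 + b * y 2 := rfl
  have hx0 := abs_nonneg (x 2)
  have hy0 := abs_nonneg (y 2)
  have fx : 0 ≤ 1 - (1 - t) * |x 2| := by nlinarith
  have fy : 0 ≤ 1 - (1 - t) * |y 2| := by nlinarith
  have habs : |a * x 2 + b * y 2| ≤ a * |x 2| + b * |y 2| := by
    refine (abs_add_le _ _).trans ?_
    rw [abs_mul, abs_mul, abs_of_nonneg ha, abs_of_nonneg hb]
  have hsum : a * (1 - (1 - t) * |x 2|) + b * (1 - (1 - t) * |y 2|)
      ≤ 1 - (1 - t) * |a * x 2 + b * y 2| := by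
    have h1 : (1 - t) * |a * x 2 + b * y 2| ≤ (1 - t) * (a * |x 2| + b * |y 2|) :=
      mul_le_mul_of_nonneg_left habs (by linarith)
    have h2 : a * (1 - (1 - t) * |x 2|) + b * (1 - (1 - t) * |y 2|)
        = (a + b) - (1 - t) * (a * |x 2| + b * |y 2|) := by ring
    rw [h2, hab]
    linarith
  obtain ⟨q, hq, hq2⟩ := combo C₀ hc h0 hu hv (mul_nonneg ha fx) (mul_nonneg hb fy) hsum
  refine ⟨?_, q, hq, ?_⟩
  · rw [e2]
    refine habs.trans ?_
    nlinarith
  · rw [e2]
    have e3 : ((a • x + b • y) 0, (a • x + b • y) 1) = a • (x 0, x 1) + b • (y 0, y 1) := rfl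
    rw [e3, hxu, hyv, smul_smul, smul_smul, hq2]

theorem sdf : SdfStmt := by
  intro C c n p t hCc hCv hCn hCs hplane hp ht0 ht1 hint
  obtain ⟨T, π, hTw, hTx, hcpt, hcvx, hsym, hzero⟩ := base C c n p hCc hCv hCn hCs hplane hp
  have hT1 : ∀ x ∈ C, T (p + t • (x - c) - c) = up (t • π x) 1 := by
    intro x hx
    have h1 : p + t • (x - c) - c = (p - c) + t • (x - c) := by abel
    rw [h1, map_add, map_smul, hTw, hTx x hx, up_smul, up_add, mul_zero, add_zero, zero_add]
  have hT2 : ∀ x ∈ C, T ((2 : ℝ) • c - p + t • (x - c) - c) = up (t • π x) (-1) := by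
    intro x hx
    have h1 : (2 : ℝ) • c - p + t • (x - c) - c = (-1 : ℝ) • (p - c) + t • (x - c) := by module
    rw [h1, map_add, map_smul, map_smul, hTw, hTx x hx, up_smul, up_smul, up_add, mul_zero,
      add_zero, smul_zero, zero_add, mul_one]
  have himage : (fun x => T (x - c)) '' convexHull ℝ (C ∪ (fun x => p + t • (x - c)) '' C ∪
      (fun x => (2 : ℝ) • c - p + t • (x - c)) '' C) = tdd (π '' C) t := by
    ext y
    constructor
    · rintro ⟨w, hw, rfl⟩
      refine hull_sub T c _ _ (tdd_convex _ hcvx hzero t ht0 ht1) ?_ w hw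
      rintro x ((hx | ⟨x, hx, rfl⟩) | ⟨x, hx, rfl⟩)
      · rw [hTx x hx]
        refine ⟨?_, π x, ⟨x, hx, rfl⟩, ?_⟩
        · rw [up_two, abs_zero]; exact zero_le_one
        · rw [up_two, abs_zero, mul_zero, sub_zero, one_smul]
          rfl
      · show T (p + t • (x - c) - c) ∈ tdd (π '' C) t
        rw [hT1 x hx]
        refine ⟨?_, π x, ⟨x, hx, rfl⟩, ?_⟩
        · rw [up_two, abs_one]
        · rw [up_two, abs_one, mul_one, sub_sub_cancel]
          rfl
      · show T ((2 : ℝ) • c - p + t • (x - c) - c) ∈ tdd (π '' C) t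
        rw [hT2 x hx]
        refine ⟨?_, π x, ⟨x, hx, rfl⟩, ?_⟩
        · rw [up_two, abs_neg, abs_one]
        · rw [up_two, abs_neg, abs_one, mul_one, sub_sub_cancel]
          rfl
    · rintro ⟨h1, q, ⟨x, hx, rfl⟩, hq⟩
      rcases le_total 0 (y 2) with h0 | h0
      · rw [abs_of_nonneg h0] at h1 hq
        refine ⟨(1 - y 2) • x + y 2 • (p + t • (x - c)), ?_, ?_⟩
        · have hK := convex_convexHull ℝ (C ∪ (fun x => p + t • (x - c)) '' C ∪
            (fun x => (2 : ℝ) • c - p + t • (x - c)) '' C)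
          exact hK (subset_convexHull ℝ _ (Or.inl (Or.inl hx)))
            (subset_convexHull ℝ _ (Or.inl (Or.inr ⟨x, hx, rfl⟩))) (by linarith) h0 (by ring)
        · show T ((1 - y 2) • x + y 2 • (p + t • (x - c)) - c) = y
          rw [aff T c _ _ (by ring), hTx x hx, hT1 x hx, up_smul, up_smul, up_add, smul_smul,
            ← add_smul, mul_zero, mul_one, zero_add]
          have e : 1 - y 2 + y 2 * t = 1 - (1 - t) * y 2 := by ring
          rw [e, ← hq]
          exact up_self y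
      · rw [abs_of_nonpos h0] at h1 hq
        refine ⟨(1 + y 2) • x + (-y 2) • ((2 : ℝ) • c - p + t • (x - c)), ?_, ?_⟩
        · have hK := convex_convexHull ℝ (C ∪ (fun x => p + t • (x - c)) '' C ∪
            (fun x => (2 : ℝ) • c - p + t • (x - c)) '' C)
          exact hK (subset_convexHull ℝ _ (Or.inl (Or.inl hx)))
            (subset_convexHull ℝ _ (Or.inr ⟨x, hx, rfl⟩)) (by linarith) (by linarith) (by ring)
        · show T ((1 + y 2) • x + (-y 2) • ((2 : ℝ) • c - p + t • (x - c)) - c) = y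
          rw [aff T c _ _ (by ring), hTx x hx, hT2 x hx, up_smul, up_smul, up_add, smul_smul,
            ← add_smul, mul_zero, zero_add]
          have e : 1 + y 2 + -y 2 * t = 1 - (1 - t) * -y 2 := by ring
          have e' : -y 2 * -1 = y 2 := by ring
          rw [e, e', ← hq]
          exact up_self y
  refine ⟨T, π '' C, ⟨hcpt, hcvx, hsym, ?_⟩, himage⟩
  refine slice (tdd (π '' C) t) (π '' C) (fun z => 1 - (1 - t) * |z|) ?_ ?_
  · rintro y ⟨_, q, hq, h⟩
    exact ⟨q, hq, h⟩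
  · rw [← himage]
    exact int_image T c _ hint

end Pool.Agent.UL6.H15
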